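import Pool.Agent.H72.AAP.Targets

open Finset Filter

namespace Pool.Agent.H64.AAP

open Pool.Agent.H72.AAP

theorem omegaY_le (y : ℝ) {q m : ℕ} (hq : 1 ≤ q) (hm : 1 ≤ m) :
    omegaY y m ≤ omegaY y (q * m) := by
  unfold omegaY
  apply Finset.card_le_card
  apply Finset.filter_subset_filter
  exact Nat.primeFactors_mono (Dvd.intro_left q rfl) (by positivity)

/-- the exponent of the Euler product -/
theorem sum_bound {c : ℝ} (hc : 0 < c)
    (h3 : ∀ t : ℕ, 3 ≤ t →
      ∑ p ∈ (Icc 1 t).filter Nat.Prime, 1 / ((p : ℝ) - 1) ≤ c * (Real.log (Real.log t) + 1))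
    {A : ℝ} (hA : 0 < A) {x : ℕ} (hx : 3 ≤ x) {L : ℝ} (hLdef : L = Real.log (Real.log x))
    (hL : 1 ≤ L) :
    ∑ p ∈ (Icc 1 x).filter Nat.Prime,
      (if (Real.log x) ^ A < (p : ℝ) then 1 / L else 1) / ((p : ℝ) - 1) ≤
      c * (|Real.log A| + 4) + c * Real.log L := by
  have hx3 : (3 : ℝ) ≤ x := by exact_mod_cast hx
  have hL0 : 0 < L := by linarith
  have hlx : 0 < Real.log x := Real.log_pos (by linarith)
  have hpos : ∀ p ∈ (Icc 1 x).filter Nat.Prime, 0 ≤ 1 / ((p : ℝ) - 1) := by
    intro p hp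
    have h2 : 2 ≤ p := (Finset.mem_filter.1 hp).2.two_le
    have h2' : (2 : ℝ) ≤ p := by exact_mod_cast h2
    apply div_nonneg (by norm_num) (by linarith)
  have hlogL : 0 ≤ Real.log L := Real.log_nonneg hL
  set y : ℝ := (Real.log x) ^ A with hy
  have hyexp : y = Real.exp (A * L) := by
    rw [hy, hLdef, Real.rpow_def_of_pos hlx, mul_comm]
  -- splitting
  have hsplit : ∑ p ∈ (Icc 1 x).filter Nat.Prime,
      (if y < (p : ℝ) then 1 / L else 1) / ((p : ℝ) - 1) ≤
      (1 / L) * ∑ p ∈ (Icc 1 x).filter Nat.Prime, 1 / ((p : ℝ) - 1) +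
      ∑ p ∈ ((Icc 1 x).filter Nat.Prime).filter (fun p : ℕ => ¬ y < (p : ℝ)),
        1 / ((p : ℝ) - 1) := by
    rw [Finset.mul_sum, Finset.sum_filter (fun p : ℕ => ¬ y < (p : ℝ)), ← Finset.sum_add_distrib]
    apply Finset.sum_le_sum
    intro p hp
    have h0 := hpos p hp
    by_cases h : y < (p : ℝ)
    · simp only [h, if_true, not_true_eq_false, if_false]
      rw [div_eq_mul_one_div]
      linarith
    · simp only [h, if_false, not_false_eq_true, if_true]
      have : 0 ≤ 1 / L * (1 / ((p : ℝ) - 1)) := mul_nonneg (by positivity) h0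
      linarith
  refine hsplit.trans ?_
  -- the second sum
  set t : ℕ := max 3 ⌊y⌋₊ with ht
  have hsub : ((Icc 1 x).filter Nat.Prime).filter (fun p : ℕ => ¬ y < (p : ℝ)) ⊆
      (Icc 1 t).filter Nat.Prime := by
    intro p hp
    simp only [Finset.mem_filter, Finset.mem_Icc, not_lt] at hp ⊢
    refine ⟨⟨hp.1.1.1, ?_⟩, hp.1.2⟩
    exact (Nat.le_floor hp.2).trans (le_max_right _ _)
  have hS1 : ∑ p ∈ ((Icc 1 x).filter Nat.Prime).filter (fun p : ℕ => ¬ y < (p : ℝ)),
        1 / ((p : ℝ) - 1) ≤ c * (Real.log (Real.log t) + 1) := by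
    refine (Finset.sum_le_sum_of_subset_of_nonneg hsub fun p hp _ => ?_).trans
      (h3 t (le_max_left _ _))
    have h2 : 2 ≤ p := (Finset.mem_filter.1 hp).2.two_le
    have h2' : (2 : ℝ) ≤ p := by exact_mod_cast h2
    apply div_nonneg (by norm_num) (by linarith)
  have hllt : Real.log (Real.log t) ≤ |Real.log A| + Real.log L + 1 := by
    have habs : 0 ≤ |Real.log A| := abs_nonneg _
    rcases le_total ⌊y⌋₊ 3 with h | h
    · have : t = 3 := by rw [ht, max_eq_left h]
      rw [this]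
      have h5 : Real.log (3 : ℝ) ≤ 2 := by
        have := Real.log_le_sub_one_of_pos (x := 3) (by norm_num)
        linarith
      have h6 : 0 < Real.log (3 : ℝ) := Real.log_pos (by norm_num)
      have h7 := Real.log_le_sub_one_of_pos h6
      have h8 : Real.log (Real.log ((3 : ℕ) : ℝ)) ≤ 1 := by
        push_cast
        linarith
      linarith
    · have h4 : t = ⌊y⌋₊ := by rw [ht, max_eq_right h]
      have hy0 : 0 ≤ y := by rw [hyexp]; positivity
      have h5 : (t : ℝ) ≤ y := by rw [h4]; exact Nat.floor_le hy0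
      have h3t : (3 : ℝ) ≤ t := by rw [h4]; exact_mod_cast h
      have h6 : 0 < Real.log (t : ℝ) := Real.log_pos (by linarith)
      have h7 : Real.log (t : ℝ) ≤ A * L := by
        have := Real.log_le_log (by linarith : (0 : ℝ) < t) h5
        rwa [hyexp, Real.log_exp] at this
      have h8 : Real.log (Real.log t) ≤ Real.log (A * L) := Real.log_le_log h6 h7
      rw [Real.log_mul hA.ne' hL0.ne'] at h8
      have h9 := le_abs_self (Real.log A)
      linarith
  have hS2 : (1 / L) * ∑ p ∈ (Icc 1 x).filter Nat.Prime, 1 / ((p : ℝ) - 1) ≤ 2 * c := by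
    have h4 := h3 x hx
    rw [← hLdef] at h4
    have h5 : (1 / L) * ∑ p ∈ (Icc 1 x).filter Nat.Prime, 1 / ((p : ℝ) - 1) ≤
        (1 / L) * (c * (L + 1)) := mul_le_mul_of_nonneg_left h4 (by positivity)
    refine h5.trans ?_
    rw [one_div, inv_mul_le_iff₀ hL0]
    nlinarith
  have h10 := mul_le_mul_of_nonneg_left hllt hc.le
  nlinarith [hS1, hS2, h10]

theorem pf_SM1 (h1 : T_HTI) (h2 : T_EUL) (h3 : T_MPR) : T_SM1 := by
  intro k A hA
  obtain ⟨C0, hC0, h1⟩ := h1
  obtain ⟨c, hc, h3⟩ := h3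
  have hl3 : 0 < Real.log (Real.log 3) := by
    apply Real.log_pos
    rw [Real.lt_log_iff_exp_lt (by norm_num)]
    have := Real.exp_one_lt_d9
    linarith
  set K1 : ℝ := C0 * Real.exp (c * (|Real.log A| + 4)) with hK1
  set K2 : ℝ := Real.exp 1 / (Real.log (Real.log 3)) ^ (c + k) with hK2
  have hK1' : 0 < K1 := by positivity
  have hK2' : 0 < K2 := by positivity
  refine ⟨K1 + K2, c + k, by positivity, by positivity, fun x hx => ?_⟩
  have hx3 : (3 : ℝ) ≤ x := by exact_mod_cast hx
  have hx0 : (0 : ℝ) < x := by linarith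
  have hlx1 : 1 < Real.log x := by
    rw [Real.lt_log_iff_exp_lt hx0]
    have := Real.exp_one_lt_d9
    linarith
  have hlx : 0 < Real.log x := by linarith
  obtain ⟨L, hL⟩ : ∃ L, L = Real.log (Real.log x) := ⟨_, rfl⟩
  have hL0 : 0 < L := by rw [hL]; exact Real.log_pos hlx1
  rw [← hL]
  set S := (Finset.Icc 1 x).filter (fun a : ℕ =>
    (a.primeFactors.filter (fun p : ℕ => (Real.log x) ^ A < (p : ℝ))).card < k) with hS
  have hScard : (S.card : ℝ) ≤ x := by
    have h4 : S.card ≤ (Icc 1 x).card := Finset.card_filter_le _ _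
    rw [Nat.card_Icc] at h4
    have h5 : S.card ≤ x := by omega
    exact_mod_cast h5
  rcases le_total L 1 with hL1 | hL1
  · -- small x
    have h4 : Real.log x ≤ Real.exp 1 := by
      rw [← Real.log_le_iff_le_exp hlx, ← hL]
      exact hL1
    have h5 : (S.card : ℝ) * Real.log x ≤ x * Real.exp 1 := by gcongr
    have h6 : Real.log (Real.log 3) ≤ L := by
      rw [hL]
      apply Real.log_le_log (Real.log_pos (by norm_num))
      exact Real.log_le_log (by norm_num) hx3
    have h7 : (Real.log (Real.log 3)) ^ (c + k) ≤ L ^ (c + k) :=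
      Real.rpow_le_rpow hl3.le h6 (by positivity)
    have h8 : Real.exp 1 ≤ K2 * L ^ (c + k) := by
      have h9 : Real.exp 1 = K2 * (Real.log (Real.log 3)) ^ (c + k) := by
        rw [hK2]
        field_simp
      calc Real.exp 1 = K2 * (Real.log (Real.log 3)) ^ (c + k) := h9
        _ ≤ K2 * L ^ (c + k) := by gcongr
    have h9 : 0 ≤ K1 * x * L ^ (c + k) := by positivity
    calc (S.card : ℝ) * Real.log x ≤ x * Real.exp 1 := h5
      _ ≤ x * (K2 * L ^ (c + k)) := by gcongr
      _ ≤ (K1 + K2) * x * L ^ (c + k) := by nlinarith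
  · -- the main case
    set y : ℝ := (Real.log x) ^ A with hy
    set z : ℝ := 1 / L with hz
    have hz0 : 0 < z := by positivity
    have hz1 : z ≤ 1 := by rw [hz, div_le_one hL0]; exact hL1
    have h4 := h1 (fun n => z ^ omegaY y n) (fun n => by positivity)
      (fun q m hq hm => pow_le_pow_of_le_one hz0.le hz1 (omegaY_le y hq hm)) x (by omega)
    have h5 := h2 y z hz0.le hz1 x
    have h6 := sum_bound hc h3 hA hx hL hL1
    have h7 : Real.exp (∑ p ∈ (Icc 1 x).filter Nat.Prime,
        (if y < (p : ℝ) then z else 1) / ((p : ℝ) - 1)) ≤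
        Real.exp (c * (|Real.log A| + 4)) * L ^ c := by
      rw [Real.rpow_def_of_pos hL0, ← Real.exp_add]
      apply Real.exp_le_exp.mpr
      rw [mul_comm (Real.log L) c]
      exact h6
    have h8 : (∑ n ∈ Icc 1 x, z ^ omegaY y n) * Real.log x ≤ K1 * x * L ^ c := by
      refine h4.trans ?_
      have h9 : C0 * x * ∑ n ∈ Icc 1 x, z ^ omegaY y n / (n : ℝ) ≤
          C0 * x * (Real.exp (c * (|Real.log A| + 4)) * L ^ c) :=
        mul_le_mul_of_nonneg_left (h5.trans h7) (by positivity)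
      refine h9.trans (le_of_eq ?_)
      rw [hK1]
      ring
    have h9 : (S.card : ℝ) * z ^ k ≤ ∑ n ∈ Icc 1 x, z ^ omegaY y n := by
      have h10 : (S.card : ℝ) * z ^ k = ∑ n ∈ S, z ^ k := by
        rw [Finset.sum_const, nsmul_eq_mul]
      rw [h10]
      calc ∑ n ∈ S, z ^ k ≤ ∑ n ∈ S, z ^ omegaY y n := by
            apply Finset.sum_le_sum
            intro n hn
            rw [hS, Finset.mem_filter] at hn
            exact pow_le_pow_of_le_one hz0.le hz1 hn.2.le
        _ ≤ ∑ n ∈ Icc 1 x, z ^ omegaY y n := by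
            apply Finset.sum_le_sum_of_subset_of_nonneg (Finset.filter_subset _ _)
            intro n _ _
            positivity
    have h10 : (S.card : ℝ) ≤ L ^ k * ∑ n ∈ Icc 1 x, z ^ omegaY y n := by
      have h11 : L ^ k * z ^ k = 1 := by
        rw [← mul_pow, hz, mul_one_div, div_self hL0.ne', one_pow]
      calc (S.card : ℝ) = L ^ k * ((S.card : ℝ) * z ^ k) := by
            rw [mul_left_comm, h11, mul_one]
        _ ≤ L ^ k * ∑ n ∈ Icc 1 x, z ^ omegaY y n := by gcongr
    calc (S.card : ℝ) * Real.log x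
        ≤ (L ^ k * ∑ n ∈ Icc 1 x, z ^ omegaY y n) * Real.log x := by gcongr
      _ = L ^ k * ((∑ n ∈ Icc 1 x, z ^ omegaY y n) * Real.log x) := by ring
      _ ≤ L ^ k * (K1 * x * L ^ c) := by gcongr
      _ = K1 * x * L ^ (c + k) := by
          rw [Real.rpow_add hL0, Real.rpow_natCast]
          ring
      _ ≤ (K1 + K2) * x * L ^ (c + k) := by
          have : 0 ≤ K2 * x * L ^ (c + k) := by positivity
          nlinarith

end Pool.Agent.H64.AAP
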